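import Pool.Agent.R339.HullM

namespace Pool.Agent.Results.MP_1038e0_co.HullStrictMono

open Pool.R339.Hull

/-- If `p ≺ q` are straight-line drawings of the complete graph on `n` vertices in general
position, then `q` has strictly more vertices on its convex hull than `p`. -/
theorem result (n : ℕ) (p q : Fin n → ℝ × ℝ) (hp : GenPos p) (hq : GenPos q)
    (h : Prec p q) : hullSize p < hullSize q :=
  hullSize_lt hp hq h

end Pool.Agent.Results.MP_1038e0_co.HullStrictMono
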